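import Pool.Agent.W325.KZ.Defs

/-!
Project KZ, piece KZ-INJ: laws of sub-sequences and of sign changes.
-/

set_option autoImplicit false

open MeasureTheory ProbabilityTheory Filter Topology Pool.Agent.W325.KZ

namespace Pool.Agent.W639.KZ.Inj

theorem inj : S_INJ := by
  classical
  intro σ S hσ A hA hdep
  -- the section
  let ext : (S → ℝ) → (ℕ → ℝ) := fun b k => if h : k ∈ S then b ⟨k, h⟩ else 0
  have hext : Measurable ext := by
    refine measurable_pi_lambda _ fun k => ?_
    by_cases h : k ∈ S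
    · simp only [ext, h, dite_true]
      exact measurable_pi_apply _
    · simp only [ext, h, dite_false]
      exact measurable_const
  have hA' : MeasurableSet (ext ⁻¹' A) := hext hA
  have key : ∀ a : ℕ → ℝ, a ∈ A ↔ ext (fun i : S => a i) ∈ A := by
    intro a
    have := hdep (x := a) (y := ext (fun i : S => a i)) (by
      intro i hi
      simp only [ext, hi, dite_true])
    exact iff_of_eq this
  have h1 : ga.map (fun (ω : ℕ → ℝ) (i : S) => ω (i : ℕ)) =
      Measure.infinitePi (fun _ : S => gaussianReal 0 1) :=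
    Measure.map_infinitePi_infinitePi_of_inj (P := fun _ : ℕ => gaussianReal 0 1)
      (f := fun i : S => (i : ℕ)) Subtype.val_injective
  have h2 : ga.map (fun (ω : ℕ → ℝ) (i : S) => ω (σ i)) =
      Measure.infinitePi (fun _ : S => gaussianReal 0 1) :=
    Measure.map_infinitePi_infinitePi_of_inj (P := fun _ : ℕ => gaussianReal 0 1)
      (f := fun i : S => σ i) (fun x y h => Subtype.ext (hσ x.2 y.2 h))
  have e1 : ga A = (ga.map (fun (ω : ℕ → ℝ) (i : S) => ω (i : ℕ))) (ext ⁻¹' A) := by
    rw [Measure.map_apply (by fun_prop) hA']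
    congr 1
    ext a
    exact key a
  have e2 : ga {a | (fun k => a (σ k)) ∈ A} =
      (ga.map (fun (ω : ℕ → ℝ) (i : S) => ω (σ i))) (ext ⁻¹' A) := by
    rw [Measure.map_apply (by fun_prop) hA']
    congr 1
    ext a
    exact key (fun k => a (σ k))
  rw [e1, e2, h1, h2]

theorem sgn_aux (ε : ℕ → ℝ) (hε : ∀ k, ε k = 1 ∨ ε k = -1) (A : Set (ℕ → ℝ))
    (hA : MeasurableSet A) : ga {a | (fun k => ε k * a k) ∈ A} = ga A := by
  have h : ga.map (fun (x : ℕ → ℝ) k => ε k * x k) = ga := by
    unfold ga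
    rw [Measure.infinitePi_map_pi (μ := fun _ : ℕ => gaussianReal 0 1)
      (f := fun k (x : ℝ) => ε k * x) (fun k => by fun_prop)]
    congr 1
    funext k
    rw [gaussianReal_map_const_mul]
    rcases hε k with h | h <;> rw [h] <;> simp
  have e : ga {a | (fun k => ε k * a k) ∈ A} = (ga.map (fun (x : ℕ → ℝ) k => ε k * x k)) A := by
    rw [Measure.map_apply (by fun_prop) hA]
    rfl
  rw [e, h]

theorem sgn : S_SIGN := by
  intro A hA
  refine ⟨sgn_aux (fun k => (-1) ^ k) (fun k => neg_one_pow_eq_or ℝ k) A hA, ?_⟩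
  have := sgn_aux (fun _ => -1) (fun k => Or.inr rfl) A hA
  simpa using this

end Pool.Agent.W639.KZ.Inj
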